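import Mathlib

/-! Chain conditions from a count of dimensions. -/

set_option autoImplicit false

namespace Pool.Agent.P.MP_22cf7a_nt.FL

open Module

variable {F V : Type} [Field F] [AddCommGroup V] [Module F V]

/-- `σ'` is finite-dimensional modulo `σ` -/
def FDq (σ σ' : Submodule F V) : Prop :=
  ∃ W : Submodule F V, FiniteDimensional F W ∧ σ' ≤ σ ⊔ W

theorem FDq.refl (σ : Submodule F V) : FDq σ σ := ⟨⊥, inferInstance, le_sup_left⟩

theorem FDq.trans {a b c : Submodule F V} (h : FDq a b) (h' : FDq b c) : FDq a c := by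
  obtain ⟨W, hW, h1⟩ := h
  obtain ⟨W', hW', h2⟩ := h'
  refine ⟨W ⊔ W', inferInstance, h2.trans ?_⟩
  rw [← sup_assoc]
  exact sup_le_sup_right h1 _

theorem tele_up (u : ℕ → ℕ) (hu : Monotone u) (R : ℕ) (S : Finset ℕ)
    (hS : ∀ n ∈ S, u n + R ≤ u (n + 1)) (N : ℕ) :
    (S.filter (· < N)).card * R ≤ u N := by
  induction N with
  | zero => simp
  | succ N ih =>
    by_cases h : N ∈ S
    · have e : S.filter (· < N + 1) = insert N (S.filter (· < N)) := by
        ext x; simp only [Finset.mem_filter, Finset.mem_insert]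
        constructor
        · rintro ⟨h1, h2⟩
          rcases Nat.lt_succ_iff_lt_or_eq.1 h2 with h3 | h3
          · exact Or.inr ⟨h1, h3⟩
          · exact Or.inl h3
        · rintro (rfl | ⟨h1, h2⟩)
          · exact ⟨h, Nat.lt_succ_self _⟩
          · exact ⟨h1, by omega⟩
      rw [e, Finset.card_insert_of_notMem (by simp), add_mul, one_mul]
      have := hS N h
      omega
    · have e : S.filter (· < N + 1) = S.filter (· < N) := by
        ext x; simp only [Finset.mem_filter]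
        constructor
        · rintro ⟨h1, h2⟩
          exact ⟨h1, lt_of_le_of_ne (by omega) fun e => h (e ▸ h1)⟩
        · rintro ⟨h1, h2⟩
          exact ⟨h1, by omega⟩
      rw [e]
      exact ih.trans (hu (Nat.le_succ N))

theorem card_up (u : ℕ → ℕ) (hu : Monotone u) (R B : ℕ) (hB : ∀ n, u n ≤ B) (S : Finset ℕ)
    (hS : ∀ n ∈ S, u n + R ≤ u (n + 1)) : S.card * R ≤ B := by
  have h := tele_up u hu R S hS (S.sup id + 1)
  have e : S.filter (· < S.sup id + 1) = S := Finset.filter_true_of_mem fun x hx =>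
    Nat.lt_succ_of_le (Finset.le_sup (f := id) hx)
  rw [e] at h
  exact h.trans (hB _)

theorem card_down (u : ℕ → ℕ) (hu : Antitone u) (R B : ℕ) (hB : ∀ n, u n ≤ B) (S : Finset ℕ)
    (hS : ∀ n ∈ S, u (n + 1) + R ≤ u n) : S.card * R ≤ B := by
  refine card_up (fun n => B - u n) (fun a b h => Nat.sub_le_sub_left (hu h) B) R B
    (fun n => Nat.sub_le _ _) S fun n hn => ?_
  have := hS n hn
  have := hB n
  omega

/-- the data of the count -/
structure Cnt (p m C : ℕ) (π : ℕ → Submodule F V) (P : Submodule F V → Prop)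
    (T : Set (Module.End F V)) : Prop where
  hp : 2 ≤ p
  fin : ∀ J, FiniteDimensional F (π J)
  inf : ∀ f : ℕ → Submodule F V, (∀ n, P (f n)) → P (⨅ n, f n)
  big : ∀ σ σ', P σ → P σ' → σ ≤ σ' → ¬ FDq σ σ' → ∃ c, ∀ j J, j + 1 + c ≤ J →
    finrank F ↥(σ ⊓ π J) + (j + m).choose m ≤ finrank F ↥(σ' ⊓ π J)
  grow : ∀ l, finrank F (π (p ^ l)) ≤ C * p ^ (m * l)
  triv : ∀ σ σ', P σ → P σ' → σ ≤ σ' → FDq σ σ' → ∀ t ∈ T, ∀ v ∈ σ', t v ∈ σ
  adm : ∀ σ, P σ → ∃ J, ∀ v, (∀ t ∈ T, t v ∈ σ) → v ∈ σ ⊔ π J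

variable {p m C : ℕ} {π : ℕ → Submodule F V} {P : Submodule F V → Prop}
  {T : Set (Module.End F V)}

theorem num (hp : 2 ≤ p) (S : Finset ℕ) (c : ℕ → ℕ)
    (h : ∀ j l, (∀ n ∈ S, j + 1 + c n ≤ p ^ l) → S.card * (j + m).choose m ≤ C * p ^ (m * l)) :
    S.card ≤ m.factorial * C * p ^ m := by
  set l := S.sup c
  have h1 : l < p ^ l := Nat.lt_pow_self (by omega)
  have h2 := h (p ^ l - 1) (l + 1) fun n hn => by
    have h3 : c n ≤ l := Finset.le_sup (f := c) hn
    have h4 : p ^ l * 2 ≤ p ^ (l + 1) := by rw [pow_succ]; exact Nat.mul_le_mul_left _ hp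
    omega
  have h3 := Nat.pow_sub_le_descFactorial (p ^ l - 1 + m) m
  rw [Nat.descFactorial_eq_factorial_mul_choose,
    show p ^ l - 1 + m + 1 - m = p ^ l by omega] at h3
  have h4 : (p ^ l) ^ m * S.card ≤ (p ^ l) ^ m * (m.factorial * C * p ^ m) := by
    calc (p ^ l) ^ m * S.card ≤ m.factorial * (p ^ l - 1 + m).choose m * S.card := by gcongr
      _ = m.factorial * (S.card * (p ^ l - 1 + m).choose m) := by ring
      _ ≤ m.factorial * (C * p ^ (m * (l + 1))) := by gcongr
      _ = (p ^ l) ^ m * (m.factorial * C * p ^ m) := by ring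
  exact Nat.le_of_mul_le_mul_left h4 (by positivity)

theorem bdd_of_card {A : Set ℕ} {B : ℕ} (h : ∀ S : Finset ℕ, (∀ n ∈ S, n ∈ A) → S.card ≤ B) :
    ∃ a, ∀ n, a ≤ n → n ∉ A := by
  have hA : A.Finite := by
    by_contra hA
    obtain ⟨S, hS, hc⟩ := Set.Infinite.exists_subset_card_eq hA (B + 1)
    have := h S fun n hn => hS hn
    omega
  obtain ⟨a, ha⟩ := hA.bddAbove
  exact ⟨a + 1, fun n hn h' => by have := ha h'; omega⟩

theorem Cnt.rk_le (h : Cnt p m C π P T) (σ : Submodule F V) (l : ℕ) :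
    finrank F ↥(σ ⊓ π (p ^ l)) ≤ C * p ^ (m * l) := by
  have := h.fin (p ^ l)
  exact (Submodule.finrank_mono inf_le_right).trans (h.grow l)

theorem Cnt.rk_mono (h : Cnt p m C π P T) {σ σ' : Submodule F V} (hl : σ ≤ σ') (J : ℕ) :
    finrank F ↥(σ ⊓ π J) ≤ finrank F ↥(σ' ⊓ π J) := by
  have := h.fin J
  have : FiniteDimensional F ↥(σ' ⊓ π J) := Submodule.finiteDimensional_inf_right _ _
  exact Submodule.finrank_mono (inf_le_inf_right _ hl)

theorem modular {σ τ W : Submodule F V} (h1 : σ ≤ τ) (h2 : τ ≤ σ ⊔ W) : τ = σ ⊔ τ ⊓ W := by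
  rw [inf_comm, ← sup_inf_assoc_of_le _ h1, inf_eq_right.2 h2]

theorem Cnt.acc (h : Cnt p m C π P T) (f : ℕ → Submodule F V) (hf : Monotone f)
    (hP : ∀ n, P (f n)) : ∃ n, ∀ k, n ≤ k → f n = f k := by
  classical
  obtain ⟨a, ha⟩ := bdd_of_card (A := {n | ¬ FDq (f n) (f (n + 1))})
    (B := m.factorial * C * p ^ m) fun S hS => by
      choose! c hc using fun n (hn : n ∈ S) =>
        h.big _ _ (hP n) (hP (n + 1)) (hf (Nat.le_succ n)) (hS n hn)
      refine num h.hp S c fun j l hl => ?_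
      exact card_up (fun n => finrank F ↥(f n ⊓ π (p ^ l))) (fun x y hxy => h.rk_mono (hf hxy) _)
        _ _ (fun n => h.rk_le _ l) S fun n hn => hc n hn j _ (hl n hn)
  have h1 : ∀ n, a ≤ n → FDq (f a) (f n) := fun n hn => by
    induction n, hn using Nat.le_induction with
    | base => exact FDq.refl _
    | succ n hn ih => exact ih.trans (not_not.1 (ha n hn))
  obtain ⟨J, hJ⟩ := h.adm _ (hP a)
  have h2 : ∀ n, a ≤ n → f n = f a ⊔ f n ⊓ π J := fun n hn =>
    modular (hf hn) fun v hv => hJ v fun t ht => h.triv _ _ (hP a) (hP n) (hf hn) (h1 n hn) t ht v hv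
  have := h.fin J
  obtain ⟨n, hn⟩ := monotone_stabilizes_iff_noetherian.2 (inferInstance : IsNoetherian F (π J))
    ⟨fun n => (f n).comap (π J).subtype, fun x y hxy => Submodule.comap_mono (hf hxy)⟩
  have h3 : ∀ k, n ≤ k → f n ⊓ π J = f k ⊓ π J := fun k hk => by
    have := congrArg (Submodule.map (π J).subtype) (hn k hk)
    simpa [Submodule.map_comap_subtype, inf_comm] using this
  refine ⟨max a n, fun k hk => ?_⟩
  rw [h2 _ (le_max_left a n), h2 k ((le_max_left a n).trans hk), ← h3 _ (le_max_right a n),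
    ← h3 k ((le_max_right a n).trans hk)]

theorem Cnt.dcc (h : Cnt p m C π P T) (f : ℕ → Submodule F V) (hf : Antitone f)
    (hP : ∀ n, P (f n)) : ∃ n, ∀ k, n ≤ k → f n = f k := by
  classical
  obtain ⟨a, ha⟩ := bdd_of_card (A := {n | ¬ FDq (f (n + 1)) (f n)})
    (B := m.factorial * C * p ^ m) fun S hS => by
      choose! c hc using fun n (hn : n ∈ S) =>
        h.big _ _ (hP (n + 1)) (hP n) (hf (Nat.le_succ n)) (hS n hn)
      refine num h.hp S c fun j l hl => ?_
      exact card_down (fun n => finrank F ↥(f n ⊓ π (p ^ l)))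
        (fun x y hxy => h.rk_mono (hf hxy) _)
        _ _ (fun n => h.rk_le _ l) S fun n hn => hc n hn j _ (hl n hn)
  have h1 : ∀ n, a ≤ n → FDq (f n) (f a) := fun n hn => by
    induction n, hn using Nat.le_induction with
    | base => exact FDq.refl _
    | succ n hn ih => exact (not_not.1 (ha n hn)).trans ih
  obtain ⟨J, hJ⟩ := h.adm _ (h.inf f hP)
  have h0 : f a ≤ (⨅ n, f n) ⊔ π J := fun v hv => hJ v fun t ht => by
    refine (Submodule.mem_iInf _).2 fun n => ?_
    exact hf (le_max_right a n) (h.triv _ _ (hP _) (hP a) (hf (le_max_left a n))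
      (h1 _ (le_max_left a n)) t ht v hv)
  have h2 : ∀ n, a ≤ n → f n = (⨅ n, f n) ⊔ f n ⊓ π J := fun n hn =>
    modular (iInf_le f n) ((hf hn).trans h0)
  have := h.fin J
  obtain ⟨n, hn⟩ := monotone_stabilizes_iff_artinian.2 (inferInstance : IsArtinian F (π J))
    ⟨fun n => OrderDual.toDual ((f n).comap (π J).subtype),
      fun x y hxy => Submodule.comap_mono (hf hxy)⟩
  have h3 : ∀ k, n ≤ k → f n ⊓ π J = f k ⊓ π J := fun k hk => by
    have h4 : (f n).comap (π J).subtype = (f k).comap (π J).subtype := hn k hk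
    have := congrArg (Submodule.map (π J).subtype) h4
    simpa [Submodule.map_comap_subtype, inf_comm] using this
  refine ⟨max a n, fun k hk => ?_⟩
  rw [h2 _ (le_max_left a n), h2 k ((le_max_left a n).trans hk), ← h3 _ (le_max_right a n),
    ← h3 k ((le_max_right a n).trans hk)]

end Pool.Agent.P.MP_22cf7a_nt.FL
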