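import Pool.Agent.P.MP_22cf7a_nt.FL.Soc
import Pool.Agent.P.MP_22cf7a_nt.FL.Chain

/-! Quotients and subquotients of admissible representations. -/

set_option autoImplicit false

namespace Pool.Agent.P.MP_22cf7a_nt.FL

open Pool.Agent.P.MP_7cb106_nt.BI Module

variable {F V G : Type} [Field F] [AddCommGroup V] [Module F V] [Group G]

/-- action on a quotient -/
def qrep (ρ : G →* Module.End F V) (σ : Submodule F V) (hσ : ∀ x, ∀ v ∈ σ, ρ x v ∈ σ) :
    G →* Module.End F (V ⧸ σ) :=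
  Representation.quotient (ρ : Representation F G V) σ fun x v hv => hσ x v hv

/-- action on a subspace -/
def srep (ρ : G →* Module.End F V) (σ : Submodule F V) (hσ : ∀ x, ∀ v ∈ σ, ρ x v ∈ σ) :
    G →* Module.End F σ :=
  Representation.subrepresentation (ρ : Representation F G V) σ fun x v hv => hσ x v hv

variable {ρ : G →* Module.End F V} {σ : Submodule F V} {hσ : ∀ x, ∀ v ∈ σ, ρ x v ∈ σ}

theorem qrep_mk (x : G) (v : V) : qrep ρ σ hσ x (σ.mkQ v) = σ.mkQ (ρ x v) := rfl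

theorem srep_coe (x : G) (v : σ) : (srep ρ σ hσ x v : V) = ρ x v := rfl

theorem fil_srep (j : ℕ) (v : σ) : v ∈ fil (srep ρ σ hσ) j ↔ (v : V) ∈ fil ρ j := by
  induction j generalizing v with
  | zero => simp [fil_zero]
  | succ j ih => simp only [mem_fil_succ, ih, Submodule.coe_sub, srep_coe]

theorem sm_qrep {Γ : ℕ → Subgroup G} (h : Sm Γ ρ) : Sm Γ (qrep ρ σ hσ) := fun v => by
  obtain ⟨w, rfl⟩ := σ.mkQ_surjective v
  obtain ⟨l, hl⟩ := h w
  exact ⟨l, fun x hx => by rw [qrep_mk, hl x hx]⟩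

theorem sm_srep {Γ : ℕ → Subgroup G} (h : Sm Γ ρ) : Sm Γ (srep ρ σ hσ) := fun v => by
  obtain ⟨l, hl⟩ := h v
  exact ⟨l, fun x hx => Subtype.ext (hl x hx)⟩

theorem arq {D d : ℕ} {g : Fin D → G} {c : (Fin D → ℕ) → Fin d → Module.Dual F V}
    (hL : LD (fil ρ) c fun i => ρ (g i) - 1) (hE : ∀ v, ∃ j, v ∈ fil ρ j)
    (σ : Submodule F V) (hσ : ∀ x, ∀ v ∈ σ, ρ x v ∈ σ) :
    ∃ c0 : ℕ, ∀ j v, σ.mkQ v ∈ fil (qrep ρ σ hσ) j → v ∈ σ ⊔ fil ρ (j + c0) := by
  have hb : ∀ i, ∀ s ∈ σ, (ρ (g i) - 1) s ∈ σ := fun i s hs => σ.sub_mem (hσ _ s hs) hs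
  obtain ⟨c0, hc⟩ := soc hL σ hb
  refine ⟨c0, fun j => ?_⟩
  induction j with
  | zero =>
    intro v hv
    rw [fil_zero, Submodule.mem_bot, Submodule.mkQ_apply, Submodule.Quotient.mk_eq_zero] at hv
    exact Submodule.mem_sup_left hv
  | succ j ih =>
    intro v hv
    have h1 : ∀ i, (ρ (g i) - 1) v ∈ σ ⊔ fil ρ (j + c0) := fun i => ih _ (by
      have := mem_fil_succ.1 hv (g i)
      rwa [qrep_mk, ← map_sub] at this)
    have h2 : ∀ k, v ∈ σ ⊔ fil ρ k → v ∈ σ ⊔ fil ρ (j + 1 + c0) := by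
      intro k
      induction k with
      | zero => exact fun h => sup_le_sup_left (fil_mono (Nat.zero_le _)) σ h
      | succ k ihk =>
        intro h
        by_cases hk : k + 1 ≤ j + 1 + c0
        · exact sup_le_sup_left (fil_mono hk) σ h
        obtain ⟨k, rfl⟩ : ∃ k', k = k' + 1 := ⟨k - 1, by omega⟩
        obtain ⟨s, hs, w, hw, e⟩ := Submodule.mem_sup.1 h
        have h3 := hc k (by omega) w hw fun i => by
          have e' : (ρ (g i) - 1) w = (ρ (g i) - 1) v - (ρ (g i) - 1) s := by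
            rw [← e, map_add]; abel
          rw [e']
          exact Submodule.sub_mem _ (sup_le_sup_left (fil_mono (by omega)) σ (h1 i))
            (Submodule.mem_sup_left (hb i s hs))
        exact ihk (e ▸ Submodule.add_mem _ (Submodule.mem_sup_left hs) h3)
    obtain ⟨k, hk⟩ := hE v
    exact h2 k (Submodule.mem_sup_right hk)

theorem fixed_fil (p : ℕ) [Fact p.Prime] [CharP F p] {D : ℕ} {g : Fin D → G} (l : ℕ)
    (hE : ∀ v, ∃ j, v ∈ fil ρ j)
    (hG : ∀ k, D * (p ^ l - 1) + 1 ≤ k → ∀ w ∈ fil ρ (k + 1),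
      (∀ i, ((ρ (g i) - 1) ^ p ^ l) w ∈ fil ρ (k - p ^ l)) → w ∈ fil ρ k)
    {w : V} (hw : ∀ i, ρ (g i ^ p ^ l) w = w) : w ∈ fil ρ (D * (p ^ l - 1) + 1) := by
  obtain ⟨k, hk⟩ := hE w
  induction k with
  | zero => exact fil_mono (Nat.zero_le _) hk
  | succ k ih =>
    by_cases h : k + 1 ≤ D * (p ^ l - 1) + 1
    · exact fil_mono h hk
    refine ih (hG k (by omega) w hk fun i => ?_)
    rw [← rho_pow_sub_one p, LinearMap.sub_apply, hw i, Module.End.one_apply, sub_self]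
    exact Submodule.zero_mem _

theorem fdq_of_fd {σ' : Submodule F V} (h : FiniteDimensional F (σ'.map σ.mkQ)) : FDq σ σ' := by
  classical
  obtain ⟨S, hS⟩ := (Submodule.fg_iff_finiteDimensional _).2 h
  choose s hs using σ.mkQ_surjective
  refine ⟨Submodule.span F (S.image s : Set V), inferInstance, ?_⟩
  have h1 : (Submodule.span F (S.image s : Set V)).map σ.mkQ = σ'.map σ.mkQ := by
    rw [Submodule.map_span, ← hS, Finset.coe_image, ← Set.image_comp]
    congr 1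
    rw [show (σ.mkQ ∘ s) = id from funext hs, Set.image_id]
  rw [← Submodule.comap_map_mkQ, h1, Submodule.comap_map_mkQ]
  exact le_sup_right

theorem map_inv {σ' : Submodule F V} (hσ' : ∀ x, ∀ v ∈ σ', ρ x v ∈ σ') :
    ∀ x, ∀ v ∈ σ'.map σ.mkQ, qrep ρ σ hσ x v ∈ σ'.map σ.mkQ := by
  rintro x _ ⟨v, hv, rfl⟩
  exact ⟨ρ x v, hσ' x v hv, rfl⟩

/-- a subspace of the subquotient that lifts to `W` -/
theorem rk_step {σ' W : Submodule F V} [FiniteDimensional F W] (hl : σ ≤ σ')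
    (U : Submodule F (σ'.map σ.mkQ)) (hU : ∀ v, ∀ hv : σ.mkQ v ∈ σ'.map σ.mkQ,
      (⟨_, hv⟩ : σ'.map σ.mkQ) ∈ U → v ∈ σ ⊔ W) :
    FiniteDimensional F U ∧ finrank F ↥(σ ⊓ W) + finrank F U ≤ finrank F ↥(σ' ⊓ W) := by
  have : FiniteDimensional F ↥(σ' ⊓ W) := Submodule.finiteDimensional_inf_right _ _
  have h1 : U.map (σ'.map σ.mkQ).subtype ≤ (σ' ⊓ W).map σ.mkQ := by
    rintro _ ⟨⟨_, v, hv, rfl⟩, hu, rfl⟩
    obtain ⟨s, hs, w, hw, e⟩ := Submodule.mem_sup.1 (hU v _ hu)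
    refine ⟨w, ⟨?_, hw⟩, ?_⟩
    · have : w = v - s := by rw [← e]; abel
      rw [this]
      exact σ'.sub_mem hv (hl hs)
    · have : σ.mkQ s = 0 := (Submodule.Quotient.mk_eq_zero σ).2 hs
      simp only [Submodule.subtype_apply]
      rw [← e, map_add, this, zero_add]
  have h2 : FiniteDimensional F (U.map (σ'.map σ.mkQ).subtype) :=
    Submodule.finiteDimensional_of_le h1
  have e := Submodule.equivSubtypeMap (σ'.map σ.mkQ) U
  refine ⟨e.symm.finiteDimensional, ?_⟩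
  have h3 := (σ.mkQ.comp (σ' ⊓ W).subtype).finrank_range_add_finrank_ker
  rw [LinearMap.range_comp, Submodule.range_subtype, LinearMap.ker_comp, Submodule.ker_mkQ] at h3
  have h4 : finrank F (σ.comap (σ' ⊓ W).subtype) = finrank F ↥(σ ⊓ W) := by
    rw [← Submodule.finrank_map_subtype_eq, Submodule.map_comap_subtype, inf_comm, ← inf_assoc,
      inf_eq_left.2 hl]
  have h5 := Submodule.finrank_mono h1
  rw [← e.finrank_eq] at h5
  omega

end Pool.Agent.P.MP_22cf7a_nt.FL
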