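import Pool.Agent.P.MP_22cf7a_nt.FL.Main

/-! Finite length over a `p`-adic field, from the steps. -/

set_option autoImplicit false

namespace Pool.Agent.P.MP_22cf7a_nt.FL

open Pool.Agent.P.MP_7cb106_nt.BI Module

theorem final (hWUA : S_WUA) (hA1 : S_A1) (hEXH : S_EXH) (hGR : S_GR) (hLDA : S_LDA)
    (hSCA : S_SCA) (hNH : S_NH) (hA7 : S_A7) (hCORE : S_CORE) (hINT : S_INT)
    (p : ℕ) [Fact p.Prime] (K : Type) [Field K] [Algebra ℚ_[p] K] [FiniteDimensional ℚ_[p] K]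
    [Algebra ℤ_[p] K] [IsScalarTower ℤ_[p] ℚ_[p] K] (r : ℕ) (F V : Type) [Field F] [CharP F p]
    [AddCommGroup V] [Module F V] (ρ : Representation F (GL (Fin (r + 1)) K) V)
    (Fix : ℕ → Submodule F V)
    (hFix : ∀ l v, v ∈ Fix l ↔ ∀ g : GL (Fin (r + 1)) (integralClosure ℤ_[p] K),
      (∃ X : Matrix (Fin (r + 1)) (Fin (r + 1)) (integralClosure ℤ_[p] K),
        g.1 = 1 + (p : integralClosure ℤ_[p] K) ^ l • X) →
      ρ (Matrix.GeneralLinearGroup.map (algebraMap (integralClosure ℤ_[p] K) K) g) v = v)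
    (hsm : ∀ v, ∃ l, v ∈ Fix l)
    (hcen : ∀ (z : GL (Fin (r + 1)) K) (c : K), z.1 = Matrix.scalar _ c →
      ∃ a : F, ∀ v, ρ z v = a • v)
    (hfd : ∀ l, FiniteDimensional F (Fix l)) (C : ℕ)
    (hC : ∀ l, finrank F (Fix l) ≤ C * p ^ (finrank ℚ_[p] K * r * l)) :
    IsFiniteLength (MonoidAlgebra F (GL (Fin (r + 1)) K)) ρ.asModule := by
  obtain ⟨h1, h2, h3⟩ := hINT p K
  have : CharZero K := charZero_of_injective_algebraMap (algebraMap ℚ_[p] K).injective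
  obtain ⟨C', π, T, h⟩ := chains hWUA hA1 hEXH hGR hLDA hSCA hNH hA7 hCORE p
    (integralClosure ℤ_[p] K) K (by
      rw [map_natCast]; exact Nat.cast_ne_zero.2 (Fact.out : p.Prime).ne_zero)
    r F V ρ Fix hFix hsm hcen hfd C (by rw [h3]; exact hC)
  exact finite_length ρ h

end Pool.Agent.P.MP_22cf7a_nt.FL
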