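import Pool.Agent.P.MP_7cb106_nt.BI.Iface
import Pool.Agent.P.MP_22cf7a_nt.FL.Abs

/-! The chain conditions for representations of general linear groups. -/

set_option autoImplicit false

namespace Pool.Agent.P.MP_22cf7a_nt.FL

open Pool.Agent.P.MP_7cb106_nt.BI Module

section abs
variable {F V G : Type} [Field F] [AddCommGroup V] [Module F V] [Group G]
  {Γ : ℕ → Subgroup G} {ρ : G →* Module.End F V}

theorem fix_fd (hΓ : Antitone Γ) (h : Sm Γ ρ) (W : Submodule F V) [FiniteDimensional F W] :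
    ∃ L, ∀ x ∈ Γ L, ∀ w ∈ W, ρ x w = w := by
  refine Submodule.fg_induction (motive := fun W _ => ∃ L, ∀ x ∈ Γ L, ∀ w ∈ W, ρ x w = w) ?_ ?_ W
    ((Submodule.fg_iff_finiteDimensional W).2 inferInstance)
  · intro v
    obtain ⟨l, hl⟩ := h v
    refine ⟨l, fun x hx w hw => ?_⟩
    obtain ⟨a, rfl⟩ := Submodule.mem_span_singleton.1 hw
    rw [map_smul, hl x hx]
  · rintro A B _ _ ⟨l, hl⟩ ⟨l', hl'⟩
    refine ⟨max l l', fun x hx w hw => ?_⟩
    obtain ⟨a, ha, b, hb, rfl⟩ := Submodule.mem_sup.1 hw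
    rw [map_add, hl x (hΓ (le_max_left _ _) hx) a ha, hl' x (hΓ (le_max_right _ _) hx) b hb]

/-- the elements that act trivially on a subquotient -/
def triv (ρ : G →* Module.End F V) (σ σ' : Submodule F V) (hσ : ∀ x, ∀ v ∈ σ, ρ x v ∈ σ) :
    Subgroup G where
  carrier := {x | ∀ v ∈ σ', ρ x v - v ∈ σ}
  one_mem' v _ := by simp
  mul_mem' {x y} hx hy v hv := by
    have : ρ (x * y) v - v = ρ x (ρ y v - v) + (ρ x v - v) := by
      rw [map_mul, Module.End.mul_apply, map_sub]; abel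
    rw [this]
    exact σ.add_mem (hσ _ _ (hy v hv)) (hx v hv)
  inv_mem' {x} hx v hv := by
    have : ρ x⁻¹ v - v = -ρ x⁻¹ (ρ x v - v) := by
      rw [map_sub, ← Module.End.mul_apply, ← map_mul, inv_mul_cancel, map_one,
        Module.End.one_apply]; abel
    rw [this]
    exact σ.neg_mem (hσ _ _ (hx v hv))

theorem triv_normal {σ σ' : Submodule F V} (hσ : ∀ x, ∀ v ∈ σ, ρ x v ∈ σ)
    (hσ' : ∀ x, ∀ v ∈ σ', ρ x v ∈ σ') : (triv ρ σ σ' hσ).Normal := ⟨fun x hx y v hv => by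
  have : ρ (y * x * y⁻¹) v - v = ρ y (ρ x (ρ y⁻¹ v) - ρ y⁻¹ v) := by
    rw [map_sub, ← Module.End.mul_apply (ρ y) (ρ y⁻¹), ← map_mul ρ y y⁻¹, mul_inv_cancel, map_one,
      map_mul, map_mul]; rfl
  rw [this]
  exact hσ _ _ (hx _ (hσ' _ v hv))⟩

theorem cnt_of (hEXH : S_EXH) (hGR : S_GR) (hLDA : S_LDA) (p c m C l0 : ℕ) [Fact p.Prime]
    [CharP F p] {D : ℕ} {g : Fin D → G} (hW : WU p c Γ g) (hS : Sm Γ ρ) (Z : Set G)
    (hZ : ∀ z ∈ Z, ρ z = 1) (P : Submodule F V → Prop)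
    (hP : ∀ σ, P σ → ∀ x, ∀ v ∈ σ, ρ x v ∈ σ)
    (hinf : ∀ f : ℕ → Submodule F V, (∀ n, P (f n)) → P (⨅ n, f n))
    (hfin : ∀ J, FiniteDimensional F (fil ρ J))
    (hcore : ∀ (W : Type) [AddCommGroup W] [Module F W] (τ : G →* Module.End F W), Sm Γ τ →
      (∀ z ∈ Z, ∃ a : F, ∀ v, τ z v = a • v) → FiniteDimensional F (fil τ 1) →
      ¬ FiniteDimensional F W →
      ∀ j, (((j + m).choose m : ℕ) : Cardinal) ≤ Module.rank F (fil τ (j + 1)))
    (hgrow : ∀ l, finrank F (fil ρ (p ^ l)) ≤ C * p ^ (m * l))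
    (htriv : ∀ σ σ', P σ → P σ' → FDq σ σ' → ∀ x ∈ Γ l0, ∀ v ∈ σ', ρ x v - v ∈ σ) :
    Cnt p m C (fil ρ) P {t | ∃ x ∈ Γ l0, t = ρ x - 1} := by
  obtain ⟨d, φ, hL⟩ := hLDA p c F V G Γ D g ρ hW hS (hfin 1)
  have hE := hEXH p c F V G Γ D g ρ hW hS
  refine ⟨(Fact.out : p.Prime).two_le, hfin, hinf, fun σ σ' h h' hl hn => ?_, hgrow, ?_,
    fun σ h => ?_⟩
  · obtain ⟨c0, hc⟩ := arq hL hE σ (hP σ h)
    have hU : ∀ j J, j + c0 ≤ J → FiniteDimensional F (fil (srep (qrep ρ σ (hP σ h))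
        (σ'.map σ.mkQ) (map_inv (hP σ' h'))) j) ∧ finrank F ↥(σ ⊓ fil ρ J) +
        finrank F (fil (srep (qrep ρ σ (hP σ h)) (σ'.map σ.mkQ) (map_inv (hP σ' h'))) j) ≤
        finrank F ↥(σ' ⊓ fil ρ J) := fun j J hJ => by
      have := hfin J
      exact rk_step hl _ fun v hv hu =>
        sup_le_sup_left (fil_mono hJ) σ (hc j v ((fil_srep j _).1 hu))
    have h1 := hcore _ _ (sm_srep (hσ := map_inv (hP σ' h')) (sm_qrep (hσ := hP σ h) hS))
      (fun z hz => ⟨1, fun v => by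
        obtain ⟨_, w, hw, rfl⟩ := v
        refine Subtype.ext ?_
        rw [srep_coe, qrep_mk, hZ z hz, one_smul, Module.End.one_apply]⟩)
      (hU 1 _ le_rfl).1 (fun hf => hn (fdq_of_fd hf))
    refine ⟨c0, fun j J hJ => ?_⟩
    obtain ⟨h2, h3⟩ := hU (j + 1) J hJ
    have h4 := h1 j
    rw [← finrank_eq_rank, Nat.cast_le] at h4
    omega
  · rintro σ σ' h h' - hq _ ⟨x, hx, rfl⟩ v hv
    exact htriv σ σ' h h' hq x hx v hv
  · obtain ⟨c0, hc⟩ := arq hL hE σ (hP σ h)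
    have hq := sm_qrep (hσ := hP σ h) hS
    refine ⟨_, fun v hv => hc _ v (fixed_fil p (g := g) l0 (hEXH p c F _ G Γ D g _ hW hq)
      (fun k hk w hw hi => hGR p c F _ G Γ D g _ hW hq (p ^ l0) k w
        (Nat.one_le_pow _ _ (Fact.out : p.Prime).pos) hk hw hi) fun i => ?_)⟩
    rw [qrep_mk, ← sub_eq_zero, ← map_sub, Submodule.mkQ_apply, Submodule.Quotient.mk_eq_zero]
    exact hv _ ⟨_, hW.pow l0 (g i), rfl⟩

end abs

section gl
variable {O K : Type} [CommRing O] [Field K] [Algebra O K] {r : ℕ}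

theorem col_smul (a : O) (x : Fin r → O) : col (a • x) = a • col x := by
  ext i j
  by_cases hj : j = 0
  · cases i using Fin.cases <;> simp [col, hj]
  · simp [col, hj]

theorem conj_col (a b : O) (ha : algebraMap O K a ≠ 0) (x : Fin r → O)
    (z z' : GL (Fin (r + 1)) O) (hz : z.1 = 1 + b • col x) (hz' : z'.1 = 1 + (b * a) • col x) :
    ∃ d : GL (Fin (r + 1)) K, Matrix.GeneralLinearGroup.map (algebraMap O K) z =
      d * Matrix.GeneralLinearGroup.map (algebraMap O K) z' * d⁻¹ := by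
  let δ : Fin (r + 1) → K := Fin.cases (algebraMap O K a) fun _ => 1
  have hδ : (Matrix.diagonal δ).det ≠ 0 := by
    rw [Matrix.det_diagonal]
    exact Finset.prod_ne_zero_iff.2 fun i _ => by cases i using Fin.cases <;> simp [δ, ha]
  refine ⟨Matrix.GeneralLinearGroup.mkOfDetNeZero _ hδ, ?_⟩
  rw [eq_mul_inv_iff_mul_eq]
  ext i j
  have e : ∀ y : GL (Fin (r + 1)) O, (Matrix.GeneralLinearGroup.map (algebraMap O K) y).1 =
      y.1.map (algebraMap O K) := fun _ => rfl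
  have e' : (Matrix.GeneralLinearGroup.mkOfDetNeZero _ hδ).1 = Matrix.diagonal δ := rfl
  rw [Units.val_mul, Units.val_mul, e, e, e', hz, hz', Matrix.mul_diagonal, Matrix.diagonal_mul]
  cases i using Fin.cases <;> cases j using Fin.cases <;>
    simp [δ, col, Matrix.one_apply, mul_comm, mul_left_comm, (Fin.succ_ne_zero _).symm]

end gl

theorem chains (hWUA : S_WUA) (hA1 : S_A1) (hEXH : S_EXH) (hGR : S_GR) (hLDA : S_LDA)
    (hSCA : S_SCA) (hNH : S_NH) (hA7 : S_A7) (hCORE : S_CORE)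
    (p : ℕ) [Fact p.Prime] (O K : Type) [CommRing O] [IsDomain O] [Algebra ℤ_[p] O]
    [Module.Finite ℤ_[p] O] [Module.Free ℤ_[p] O] [Field K] [Algebra O K]
    (hp : algebraMap O K p ≠ 0) (r : ℕ) (F V : Type) [Field F] [CharP F p] [AddCommGroup V]
    [Module F V] (ρ : GL (Fin (r + 1)) K →* Module.End F V) (Fix : ℕ → Submodule F V)
    (hFix : ∀ l v, v ∈ Fix l ↔ ∀ g : GL (Fin (r + 1)) O,
      (∃ X : Matrix (Fin (r + 1)) (Fin (r + 1)) O, g.1 = 1 + (p : O) ^ l • X) →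
      ρ (Matrix.GeneralLinearGroup.map (algebraMap O K) g) v = v)
    (hsm : ∀ v, ∃ l, v ∈ Fix l)
    (hcen : ∀ (z : GL (Fin (r + 1)) K) (c : K), z.1 = Matrix.scalar _ c →
      ∃ a : F, ∀ v, ρ z v = a • v)
    (hfd : ∀ l, FiniteDimensional F (Fix l)) (C : ℕ)
    (hC : ∀ l, finrank F (Fix l) ≤ C * p ^ (finrank ℤ_[p] O * r * l)) :
    ∃ (C' : ℕ) (π : ℕ → Submodule F V) (T : Set (Module.End F V)),
      Cnt p (finrank ℤ_[p] O * r) C' π (fun σ => ∀ x, ∀ v ∈ σ, ρ x v ∈ σ) T := by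
  have h2 := (Fact.out : p.Prime).two_le
  have he : 3 ≤ p ^ 2 := by nlinarith
  obtain ⟨D, g, hW⟩ := hWUA p O (Fin (r + 1)) 2 he
  let ι : Cg O (Fin (r + 1)) ((p : O) ^ 2) →* GL (Fin (r + 1)) K :=
    (Matrix.GeneralLinearGroup.map (algebraMap O K)).comp (Subgroup.subtype _)
  let ρ0 := ρ.comp ι
  have hS : Sm (Gam p O (Fin (r + 1)) 2) ρ0 := fun v => by
    obtain ⟨l, hl⟩ := hsm v
    refine ⟨l, fun x hx => (hFix l v).1 hl x.1 ?_⟩
    obtain ⟨X, hX⟩ := mem_Gam.1 hx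
    exact ⟨(p : O) ^ 2 • X, by rw [hX, smul_smul, ← pow_add, add_comm l]⟩
  have hle : ∀ l, fil ρ0 (p ^ l) ≤ Fix (2 + l) := fun l w hw => (hFix _ _).2 fun y ⟨X, hX⟩ => by
    have hy : y ∈ Cg O (Fin (r + 1)) ((p : O) ^ 2) :=
      mem_Cg.2 ⟨(p : O) ^ l • X, by rw [hX, smul_smul, ← pow_add]⟩
    have h1 := hA1 p 2 F V _ _ D g ρ0 hW hS l (mem_Gam.2 ⟨X, hX⟩ : (⟨y, hy⟩ : Cg O _ _) ∈ _)
    have h3 := Esh_apply_eq_zero (mem_Ssh.1 h1) hw le_rfl
    rwa [LinearMap.sub_apply, Module.End.one_apply, sub_eq_zero] at h3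
  have hZ : ∀ (z : Cg O (Fin (r + 1)) ((p : O) ^ 2)) (a : O), z.1.1 = Matrix.scalar _ a →
      ρ0 z = 1 := fun z a hz => by
    refine hSCA p 2 F V _ _ D g ρ0 hW hS z (hcen (ι z) (algebraMap O K a) ?_)
    change z.1.1.map (algebraMap O K) = _
    rw [hz]
    ext i j
    by_cases hij : i = j <;> simp [hij]
  obtain ⟨c, l0, -, h7⟩ := hA7 p O r 2 (by norm_num)
  obtain ⟨u, hu, -⟩ := hNH O r ((p : O) ^ 2)
  refine ⟨C * p ^ (finrank ℤ_[p] O * r * 2), fil ρ0, _, cnt_of hEXH hGR hLDA p 2 _ _ l0 hW hS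
    {z | ∃ a : O, z.1.1 = Matrix.scalar _ a} (fun z ⟨a, ha⟩ => hZ z a ha) _
    (fun σ h x => h (ι x)) (fun f hf x v hv => ?_) (fun J => ?_)
    (fun W _ _ τ h1 h3 => hCORE p O r 2 he F W τ h1 fun z a ha => h3 z ⟨a, ha⟩) (fun l => ?_)
    fun σ σ' h h' hq => ?_⟩
  · rw [Submodule.mem_iInf] at hv ⊢
    exact fun n => hf n x v (hv n)
  · have := hfd (2 + J)
    exact Submodule.finiteDimensional_of_le
      ((fil_mono (Nat.lt_pow_self (by omega)).le).trans (hle J))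
  · have := hfd (2 + l)
    refine (Submodule.finrank_mono (hle l)).trans ((hC _).trans (le_of_eq ?_))
    rw [mul_add, pow_add, mul_assoc C]
  · obtain ⟨W, hW', hq⟩ := hq
    obtain ⟨L, hL⟩ := fix_fd hW.anti hS W
    have hN := triv_normal h h'
    let S := (triv ρ σ σ' h).comap ι
    have hL' : Gam p O (Fin (r + 1)) 2 L ≤ S := fun x hx v hv => by
      obtain ⟨s, hs, w, hw, rfl⟩ := Submodule.mem_sup.1 (hq hv)
      have e : ρ (ι x) w = w := hL x hx w hw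
      rw [map_add, e, add_sub_add_right_eq_sub]
      exact σ.sub_mem (h _ s hs) hs
    have hU : ∀ (k : ℕ) (z : Cg O (Fin (r + 1)) ((p : O) ^ 2)) (x : Fin r → O),
        z.1.1 = 1 + (p : O) ^ (2 + k) • col x → z ∈ S := fun k z x hz => by
      have e := hu ((p : O) ^ (k + L) • x)
      obtain ⟨d, hd⟩ := conj_col (K := K) ((p : O) ^ L) ((p : O) ^ (2 + k))
        (by rw [map_pow]; exact pow_ne_zero _ hp) x z.1 (u ((p : O) ^ (k + L) • x)).1 hz
        (by rw [e, col_smul, smul_smul, ← pow_add, ← pow_add, add_assoc])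
      have h1 : u ((p : O) ^ (k + L) • x) ∈ S := hL' (mem_Gam.2 ⟨(p : O) ^ k • col x, by
        rw [e, col_smul, smul_smul, smul_smul, ← pow_add, ← pow_add, add_comm k, add_assoc]⟩)
      have h3 := hN.conj_mem _ h1 d
      change Matrix.GeneralLinearGroup.map (algebraMap O K) z.1 ∈ triv ρ σ σ' h
      rw [hd]
      exact h3
    have hd : ∀ k, Gam p O (Fin (r + 1)) 2 (l0 + k) ≤ S → Gam p O (Fin (r + 1)) 2 l0 ≤ S := by
      intro k
      induction k with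
      | zero => exact id
      | succ k ih =>
        refine fun hk => ih (h7 (l0 + k) (Nat.le_add_right _ _) S (hN.comap ι) hk
          (fun z a ha v _ => ?_) (hU _))
        have e : ρ (ι z) = 1 := hZ z a ha
        rw [e, Module.End.one_apply, sub_self]
        exact σ.zero_mem
    exact fun x hx => hd L ((hW.anti (Nat.le_add_left _ _)).trans hL') hx

theorem finite_length {F V G : Type} [Field F] [AddCommGroup V] [Module F V] [Group G]
    (ρ : Representation F G V) {p m C : ℕ} {π : ℕ → Submodule F V} {T : Set (Module.End F V)}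
    (h : Cnt p m C π (fun σ => ∀ x, ∀ v ∈ σ, ρ x v ∈ σ) T) :
    IsFiniteLength (MonoidAlgebra F G) ρ.asModule := by
  have e := ρ.mapSubmodule
  have hP : ∀ σ : ρ.invtSubmodule, ∀ x, ∀ v ∈ σ.1, ρ x v ∈ σ.1 := fun σ x v hv =>
    (Representation.mem_invtSubmodule ρ).1 σ.2 x hv
  rw [isFiniteLength_iff_isNoetherian_isArtinian]
  refine ⟨monotone_stabilizes_iff_noetherian.1 fun f => ?_,
    monotone_stabilizes_iff_artinian.1 fun f => ?_⟩
  · obtain ⟨n, hn⟩ := h.acc (fun n => (e.symm (f n)).1)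
      (fun a b hab => e.symm.monotone (f.monotone hab)) fun n => hP _
    exact ⟨n, fun k hk => e.symm.injective (Subtype.ext (hn k hk))⟩
  · obtain ⟨n, hn⟩ := h.dcc (fun n => (e.symm (OrderDual.ofDual (f n))).1)
      (fun a b hab => e.symm.monotone (f.monotone hab)) fun n => hP _
    exact ⟨n, fun k hk => e.symm.injective (Subtype.ext (hn k hk))⟩

end Pool.Agent.P.MP_22cf7a_nt.FL
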