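import Pool.Agent.P.MP_7cb106_nt.BI.Base

/-! The socle of the quotient of the associated graded module lives in bounded degree. -/

set_option autoImplicit false

namespace Pool.Agent.P.MP_22cf7a_nt.FL

open Pool.Agent.P.MP_7cb106_nt.BI MvPolynomial

variable {F V : Type} [Field F] [AddCommGroup V] [Module F V] {D d : ℕ}

/-- pairing of a polynomial with a vector in degree `k` -/
noncomputable def ev1 (c : (Fin D → ℕ) → Fin d → Module.Dual F V) (k : ℕ) (a : Fin d) (w : V) :
    MvPolynomial (Fin D) F →ₗ[F] F :=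
  (basisMonomials (Fin D) F).constr F fun α => if ∑ i, α i = k then c α a w else 0

variable {π : ℕ → Submodule F V} {c : (Fin D → ℕ) → Fin d → Module.Dual F V}
  {b : Fin D → Module.End F V}

theorem ev1_mono (k : ℕ) (a : Fin d) (w : V) (α : Fin D →₀ ℕ) (r : F) :
    ev1 c k a w (monomial α r) = r * if ∑ i, α i = k then c α a w else 0 := by
  have h : (monomial α r : MvPolynomial (Fin D) F) = r • basisMonomials (Fin D) F α := by
    simp [smul_monomial]
  rw [h, map_smul, ev1, Module.Basis.constr_basis, smul_eq_mul]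

theorem ev1_add (k : ℕ) (a : Fin d) (w w' : V) (q : MvPolynomial (Fin D) F) :
    ev1 c k a (w + w') q = ev1 c k a w q + ev1 c k a w' q := by
  induction q using MvPolynomial.induction_on' with
  | monomial α r => simp only [ev1_mono, map_add]; split_ifs <;> ring
  | add p q hp hq => simp only [map_add, hp, hq]; ring

theorem ev1_van (h : LD π c b) (k : ℕ) (a : Fin d) {w : V} (hw : w ∈ π k)
    (q : MvPolynomial (Fin D) F) : ev1 c k a w q = 0 := by
  induction q using MvPolynomial.induction_on' with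
  | monomial α r =>
    rw [ev1_mono]
    split_ifs with h1
    · rw [h.van k w hw α a h1.ge, mul_zero]
    · simp
  | add p q hp hq => simp only [map_add, hp, hq, add_zero]

theorem X_mul_mono (i : Fin D) (α : Fin D →₀ ℕ) (r : F) :
    (X i * monomial α r : MvPolynomial (Fin D) F) = monomial (α + Finsupp.single i 1) r := by
  rw [X, monomial_mul, one_mul, add_comm]

theorem sum_shift (i : Fin D) (α : Fin D →₀ ℕ) :
    ∑ j, (α + Finsupp.single i 1 : Fin D →₀ ℕ) j = ∑ j, α j + 1 := by
  simp [Finset.sum_add_distrib, Finsupp.single_apply]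

theorem ev1_zero_X (a : Fin d) (w : V) (i : Fin D) (q : MvPolynomial (Fin D) F) :
    ev1 c 0 a w (X i * q) = 0 := by
  induction q using MvPolynomial.induction_on' with
  | monomial α r => rw [X_mul_mono, ev1_mono, sum_shift]; simp
  | add p q hp hq => simp only [mul_add, map_add, hp, hq, add_zero]

theorem ev1_succ_X (h : LD π c b) (k : ℕ) (a : Fin d) {w : V} (hw : w ∈ π (k + 2)) (i : Fin D)
    (q : MvPolynomial (Fin D) F) : ev1 c (k + 1) a w (X i * q) = ev1 c k a (b i w) q := by
  induction q using MvPolynomial.induction_on' with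
  | monomial α r =>
    rw [X_mul_mono, ev1_mono, ev1_mono, sum_shift]
    by_cases h1 : ∑ j, α j = k
    · rw [if_pos h1, if_pos (by omega), h.shift i α a w (by rw [h1]; exact hw)]
      congr 3
      funext j
      simp [Finsupp.single_apply, Pi.single_apply, eq_comm]
    · rw [if_neg h1, if_neg (by omega)]
  | add p q hp hq => simp only [mul_add, map_add, hp, hq]

theorem ev1_deg (k : ℕ) (a : Fin d) (w : V) (q : MvPolynomial (Fin D) F)
    (hq : q.totalDegree < k) : ev1 c k a w q = 0 := by
  rw [q.as_sum, map_sum]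
  refine Finset.sum_eq_zero fun α hα => ?_
  have h1 := le_totalDegree hα
  rw [Finsupp.sum_fintype _ _ (fun _ => rfl)] at h1
  rw [ev1_mono, if_neg (by omega), mul_zero]

/-- pairing of a tuple of polynomials with a vector in degree `k` -/
noncomputable def ev (c : (Fin D → ℕ) → Fin d → Module.Dual F V) (k : ℕ) (w : V)
    (p : Fin d → MvPolynomial (Fin D) F) : F := ∑ a, ev1 c k a w (p a)

theorem ev_add (k : ℕ) (w : V) (p q : Fin d → MvPolynomial (Fin D) F) :
    ev c k w (p + q) = ev c k w p + ev c k w q := by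
  simp [ev, Finset.sum_add_distrib]

theorem ev_C (k : ℕ) (w : V) (r : F) (p : Fin d → MvPolynomial (Fin D) F) :
    ev c k w ((C r : MvPolynomial (Fin D) F) • p) = r * ev c k w p := by
  simp [ev, Finset.mul_sum, C_mul']

/-- tuples that vanish on a subspace in every degree -/
noncomputable def Nm (h : LD π c b) (σ : Submodule F V) (hσ : ∀ i, ∀ s ∈ σ, b i s ∈ σ) :
    Submodule (MvPolynomial (Fin D) F) (Fin d → MvPolynomial (Fin D) F) where
  carrier := {p | ∀ k, ∀ s ∈ σ, s ∈ π (k + 1) → ev c k s p = 0}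
  add_mem' hp hq k s hs hk := by rw [ev_add, hp k s hs hk, hq k s hs hk, add_zero]
  zero_mem' k s _ _ := by simp [ev]
  smul_mem' q p hp := by
    induction q using MvPolynomial.induction_on with
    | C r => intro k s hs hk; rw [ev_C, hp k s hs hk, mul_zero]
    | add q q' h1 h2 =>
      intro k s hs hk; rw [add_smul, ev_add, h1 k s hs hk, h2 k s hs hk, add_zero]
    | mul_X q i h1 =>
      intro k s hs hk
      rw [mul_comm, mul_smul]
      cases k with
      | zero => exact Finset.sum_eq_zero fun a _ => ev1_zero_X a s i _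
      | succ k =>
        rw [← h1 k (b i s) (hσ i s hs) (h.low i _ s hk)]
        exact Finset.sum_congr rfl fun a _ => ev1_succ_X h k a hk i _

theorem sep (h : LD π c b) (σ : Submodule F V) (hσ : ∀ i, ∀ s ∈ σ, b i s ∈ σ) (k : ℕ) {w : V}
    (hw : w ∈ π (k + 1)) (h0 : ∀ p ∈ Nm h σ hσ, ev c k w p = 0) : w ∈ σ ⊔ π k := by
  classical
  by_contra hn
  obtain ⟨l, hl, hl0⟩ := Submodule.exists_dual_map_eq_bot_of_notMem hn inferInstance
  have hz : ∀ x ∈ σ ⊔ π k, l x = 0 := fun x hx => by
    have : l x ∈ (σ ⊔ π k).map l := Submodule.mem_map_of_mem hx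
    rwa [hl0, Submodule.mem_bot] at this
  let ι := {α : Fin D →₀ ℕ // α ∈ Finset.finsuppAntidiag Finset.univ k} × Fin d
  have hι : ∀ α : Fin D →₀ ℕ, α ∈ Finset.finsuppAntidiag Finset.univ k ↔ ∑ i, α i = k := by
    intro α; simp [Finset.mem_finsuppAntidiag]
  let L : ι → π (k + 1) →ₗ[F] F := fun x => (c x.1.1 x.2).comp (π (k + 1)).subtype
  have hs : l.comp (π (k + 1)).subtype ∈ Submodule.span F (Set.range L) := by
    refine mem_span_of_iInf_ker_le_ker fun x hx => ?_
    simp only [Submodule.mem_iInf, LinearMap.mem_ker] at hx ⊢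
    refine hz _ (Submodule.mem_sup_right (h.emb k x x.2 fun α a hα => ?_))
    have := hx (⟨Finsupp.equivFunOnFinite.symm α, (hι _).2 (by simpa using hα)⟩, a)
    simpa [L] using this
  have key : ∀ m ∈ Submodule.span F (Set.range L), ∃ p : Fin d → MvPolynomial (Fin D) F,
      (∀ j x, j ≠ k → ev c j x p = 0) ∧ ∀ x : π (k + 1), ev c k x p = m x := by
    intro m hm
    induction hm using Submodule.span_induction with
    | mem m hm =>
      obtain ⟨⟨α, a⟩, rfl⟩ := hm
      have hα := (hι _).1 α.2
      have e : ∀ j x, ev c j x (Pi.single a (monomial α.1 (1 : F))) =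
          if ∑ i, α.1 i = j then c α.1 a x else 0 := by
        intro j x
        rw [ev, Finset.sum_eq_single a (fun a' _ h' => by simp [Pi.single_eq_of_ne h'])
          (by simp), Pi.single_eq_same, ev1_mono, one_mul]
      refine ⟨Pi.single a (monomial α.1 1), fun j x hj => ?_, fun x => ?_⟩
      · rw [e, if_neg (by omega)]
      · rw [e, if_pos hα]; rfl
    | zero => exact ⟨0, fun j x _ => by simp [ev], fun x => by simp [ev]⟩
    | add m m' _ _ h1 h2 =>
      obtain ⟨p, hp, hp'⟩ := h1
      obtain ⟨q, hq, hq'⟩ := h2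
      exact ⟨p + q, fun j x hj => by rw [ev_add, hp j x hj, hq j x hj, add_zero],
        fun x => by rw [ev_add, hp', hq', LinearMap.add_apply]⟩
    | smul r m _ h1 =>
      obtain ⟨p, hp, hp'⟩ := h1
      exact ⟨(C r : MvPolynomial (Fin D) F) • p, fun j x hj => by rw [ev_C, hp j x hj, mul_zero],
        fun x => by rw [ev_C, hp', LinearMap.smul_apply, smul_eq_mul]⟩
  obtain ⟨p, hp, hp'⟩ := key _ hs
  refine hl ?_
  have h1 : p ∈ Nm h σ hσ := fun j s hs' hj => by
    by_cases e : j = k
    · rw [e] at hj ⊢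
      exact (hp' ⟨s, hj⟩).trans (hz s (Submodule.mem_sup_left hs'))
    · exact hp j s e
  exact (hp' ⟨w, hw⟩).symm.trans (h0 p h1)

theorem soc (h : LD π c b) (σ : Submodule F V) (hσ : ∀ i, ∀ s ∈ σ, b i s ∈ σ) :
    ∃ c0 : ℕ, ∀ k, c0 ≤ k → ∀ w ∈ π (k + 2), (∀ i, b i w ∈ σ ⊔ π k) → w ∈ σ ⊔ π (k + 1) := by
  classical
  obtain ⟨T, hT⟩ := (IsNoetherian.noetherian (Nm h σ hσ))
  refine ⟨T.sup fun p => Finset.univ.sup fun a => (p a).totalDegree, fun k hk w hw hb => ?_⟩
  refine sep h σ hσ (k + 1) hw fun p hp => ?_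
  have hX : ∀ i, ∀ p ∈ Nm h σ hσ, ev c (k + 1) w ((X i : MvPolynomial (Fin D) F) • p) = 0 := by
    intro i p hp
    obtain ⟨s, hs, u, hu, e⟩ := Submodule.mem_sup.1 (hb i)
    have hs' : s ∈ π (k + 1) := by
      have : s = b i w - u := by rw [← e]; abel
      rw [this]
      exact (π (k + 1)).sub_mem (h.low i _ w hw) (h.mono (Nat.le_succ k) hu)
    rw [← hp k s hs hs']
    refine Finset.sum_congr rfl fun a _ => ?_
    rw [Pi.smul_apply, smul_eq_mul, ev1_succ_X h k a hw, ← e, ev1_add, ev1_van h k a hu, add_zero]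
  rw [← hT] at hp
  induction hp using Submodule.span_induction with
  | mem p hp =>
    refine Finset.sum_eq_zero fun a _ => ev1_deg _ a w _ (Nat.lt_succ_of_le (le_trans ?_ hk))
    exact le_trans (Finset.le_sup (f := fun a => (p a).totalDegree) (Finset.mem_univ a))
      (Finset.le_sup (f := fun p : Fin d → MvPolynomial (Fin D) F =>
        Finset.univ.sup fun a => (p a).totalDegree) hp)
  | zero => simp [ev]
  | add p q _ _ h1 h2 => rw [ev_add, h1, h2, add_zero]
  | smul q p hp h1 =>
    rw [hT] at hp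
    induction q using MvPolynomial.induction_on with
    | C r => rw [ev_C, h1, mul_zero]
    | add q q' h2 h3 => rw [add_smul, ev_add, h2, h3, add_zero]
    | mul_X q i _ => rw [mul_comm, mul_smul]; exact hX i _ ((Nm h σ hσ).smul_mem q hp)

end Pool.Agent.P.MP_22cf7a_nt.FL
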